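import Pool.Agent.H46.NF.L
import Pool.Agent.H49.TOW.EXC

/-!
# NF, CMPN: existence of the completions at the primes which are not above `2`
-/

set_option autoImplicit false

namespace Pool.NF

open Polynomial NumberField Pool.HYP Pool.TOW Pool.AVS Pool.T1 IsDedekindDomain WithZero
  Pool.AVS.CPP

/-- CMPN. -/
theorem cmpn : CMPNStmt := by
  intro K _ _ P h2P
  have hfin : Finite (𝓞 K ⧸ P.asIdeal) := Ideal.finiteQuotientOfFreeOfNeBot P.asIdeal P.ne_bot
  obtain ⟨ϖ, h1, h2⟩ : ∃ ϖ : 𝓞 K, ϖ ∈ P.asIdeal ∧ ϖ ∉ P.asIdeal ^ 2 := by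
    obtain ⟨x, hx, hx'⟩ := Ideal.exists_mem_pow_notMem_pow_succ P.asIdeal P.ne_bot
      P.isPrime.ne_top 1
    exact ⟨x, by rwa [pow_one] at hx, hx'⟩
  have hv1 : ∀ x : K, Valued.v (algebraMap K (P.adicCompletion K) x) = P.valuation K x :=
    fun x => HeightOneSpectrum.valuedAdicCompletion_eq_valuation' (v := P) x
  have hpow : ∀ (a : 𝓞 K) (n : ℕ), P.valuation K (algebraMap (𝓞 K) K a) ≤ exp (-(n : ℤ)) ↔
      a ∈ P.asIdeal ^ n := fun a n => by
    rw [HeightOneSpectrum.valuation_of_algebraMap]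
    exact HeightOneSpectrum.intValuation_le_pow_iff_mem P a n
  have hϖ : Valued.v (algebraMap K (P.adicCompletion K) (algebraMap (𝓞 K) K ϖ)) =
      exp (-1 : ℤ) := by
    rw [hv1]
    have h3 := (hpow ϖ 1).2 (by rwa [pow_one])
    have h4 : ¬ P.valuation K (algebraMap (𝓞 K) K ϖ) ≤ exp (-((2 : ℕ) : ℤ)) :=
      fun h => h2 ((hpow ϖ 2).1 h)
    have h5 : P.valuation K (algebraMap (𝓞 K) K ϖ) ≠ 0 := by
      intro h6
      rw [h6] at h4
      exact h4 zero_le
    obtain ⟨k, hk⟩ : ∃ k : ℤ, P.valuation K (algebraMap (𝓞 K) K ϖ) = exp k :=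
      ⟨log _, (exp_log h5).symm⟩
    rw [hk, exp_le_exp] at h3 h4
    rw [hk]
    congr 1
    push_cast at h3 h4
    omega
  have hcpl := Pool.TOW.Exc49.cpl_of K (𝓞 K) P hfin
  have h21 : Valued.v (2 : P.adicCompletion K) = 1 := by
    have h3 : (2 : P.adicCompletion K) =
        algebraMap K (P.adicCompletion K) (algebraMap (𝓞 K) K (2 : 𝓞 K)) := by
      rw [map_ofNat, map_ofNat]
    rw [h3, hv1]
    exact P.valuation_eq_one_iff_notMem.2 h2P
  have h20 : (2 : P.adicCompletion K) ≠ 0 := by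
    intro h3
    rw [h3, map_zero] at h21
    exact zero_ne_one h21
  refine ⟨ϖ, P.adicCompletion K, inferInstance, P.adicCompletionIntegers K,
    algebraMap K (P.adicCompletion K), h1, h2, ?_, ?_, ?_, hcpl⟩
  · exact loc_of _ hϖ h20 h21 hcpl.fin
  · intro a
    change Valued.v (algebraMap K (P.adicCompletion K) (algebraMap (𝓞 K) K a)) ≤ 1
    rw [hv1]
    exact P.valuation_le_one a
  · intro a
    change Valued.v (algebraMap K (P.adicCompletion K) (algebraMap (𝓞 K) K a) /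
      algebraMap K (P.adicCompletion K) (algebraMap (𝓞 K) K ϖ)) ≤ 1 ↔ a ∈ P.asIdeal
    rw [map_div₀, hϖ, div_le_one₀ (zero_lt_iff.2 exp_ne_zero), hv1]
    have h3 := hpow a 1
    rw [pow_one] at h3
    exact h3

end Pool.NF
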