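import Pool.Agent.H2.NF.S3
import Pool.Agent.H77.T1.LDP

/-!
# NF, LDPN: the local data at a good prime
-/

set_option autoImplicit false
set_option linter.overlappingInstances false

namespace Pool.NF

open Polynomial Matrix Pool.HYP Pool.TOW Pool.AVS Pool.T1 IsDedekindDomain NumberField

open Pool.T1.Ldp

/-- LDPN from its parts. -/
theorem ldpn (hLDT : LDTNStmt) (hLBQ : LBQStmt) (hGDU : GDUNStmt) (hWAP : WAPStmt)
    (hVQB : VQBStmt) (hTRF : TRFStmt) (hSEMA : SEMANStmt) : LDPNStmt := by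
  classical
  intro K _ _ n g ω p hp hp2 hgood T ϖ d hϖ A B hA hB hAd hBd hBsd hAsd hTk
  have hxp : ((p : 𝓞 K) : K) ≠ 0 := by
    have h1 : ((p : 𝓞 K) : K) = (p : K) := map_natCast (algebraMap (𝓞 K) K) p
    rw [h1]
    exact_mod_cast hp.ne_zero
  have hfin : {P : HeightOneSpectrum (𝓞 K) | Abv p P}.Finite := (hSEMA K).1 p hp.ne_zero
  -- the local bases
  have hk : ∀ P : HeightOneSpectrum (𝓞 K), ∃ k : Matrix (Fin (2 * g + 1)) (Fin (2 * g + 1)) K,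
      k.det ≠ 0 ∧ (Abv p P → P ∉ T → GIn (RP K P) (kᵀ * A * k)) ∧
      (Abv p P → P ∈ T → BlkQ (RP K P) (ϖ P : K) (kᵀ * A * k) ∧
        d P = dsc (ϖ P : K) (kᵀ * A * k)) := by
    intro P
    by_cases hP : Abv p P
    · by_cases hPT : P ∈ T
      · obtain ⟨k, h1, h2⟩ := hTk P hPT hP
        exact ⟨k, h1, fun _ h => absurd hPT h, fun _ _ => h2⟩
      · obtain ⟨k, h1, h2⟩ := hAsd P hP hPT
        exact ⟨k, h1, fun _ _ => h2, fun _ h => absurd h hPT⟩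
    · exact ⟨1, by rw [Matrix.det_one]; exact one_ne_zero, fun h => absurd h hP,
        fun h => absurd h hP⟩
  choose k hk0 hkN hkT using hk
  obtain ⟨h, hh0, hh⟩ := (hWAP (𝓞 K) K hfin.toFinset (((p : 𝓞 K) : K) ^ 2)
    (pow_ne_zero 2 hxp)).2 (2 * g + 1) k fun P _ => hk0 P
  have hh' : ∀ P : HeightOneSpectrum (𝓞 K), Abv p P → ∀ i j,
      ((k P)⁻¹ * h - 1) i j / ((p : 𝓞 K) : K) ^ 2 ∈ RP K P := fun P hP =>
    hh P (hfin.mem_toFinset.2 hP)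
  have hxR : ∀ P : HeightOneSpectrum (𝓞 K), ((p : 𝓞 K) : K) ∈ RP K P := fun P =>
    rp_alg (K := K) (P := P) (p : 𝓞 K)
  have hx2 : ∀ P : HeightOneSpectrum (𝓞 K), ((p : 𝓞 K) : K) ^ 2 ∈ RP K P := by
    intro P
    rw [sq]
    exact rp_mul (hxR P) (hxR P)
  have hw0 : ∀ P ∈ T, algebraMap (𝓞 K) K (ϖ P) ≠ 0 := fun P hP => alg_ne fun h0 =>
    (hϖ P hP).2 (by rw [h0]; exact Ideal.zero_mem _)
  have hCm : ∀ P : HeightOneSpectrum (𝓞 K), Abv p P →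
      MIn (RP K P) ((k P)ᵀ * A * k P) := by
    intro P hP
    by_cases hPT : P ∈ T
    · exact blk_mIn (hw0 P hPT) (hkT P hP hPT).1
    · exact (hkN P hP hPT).1
  have hnear : ∀ P : HeightOneSpectrum (𝓞 K), Abv p P →
      ∃ Z : Matrix (Fin (2 * g + 1)) (Fin (2 * g + 1)) K, MIn (RP K P) Z ∧
      ∀ i j, (hᵀ * A * h) i j = ((k P)ᵀ * A * k P) i j +
        ((p : 𝓞 K) : K) ^ 2 * Z i j := fun P hP =>
    near (pow_ne_zero 2 hxp) (hx2 P) A (k P) h (hk0 P) (hCm P hP) (hh' P hP)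
  -- the new form
  have hsym : (hᵀ * A * h)ᵀ = hᵀ * A * h := by
    rw [Matrix.transpose_mul, Matrix.transpose_mul, Matrix.transpose_transpose, hA,
      Matrix.mul_assoc]
  have hmin : MIn (IS K p) (hᵀ * A * h) := by
    intro i j P hP
    obtain ⟨Z, hZ, h1⟩ := hnear P hP
    rw [h1]
    exact rp_add (hCm P hP i j) (rp_mul (hx2 P) (hZ i j))
  have hui : ∀ P : HeightOneSpectrum (𝓞 K), Abv p P → P ∉ T →
      UI (RP K P) (hᵀ * A * h).det := by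
    intro P hP hPT
    obtain ⟨Z, hZ, h1⟩ := hnear P hP
    obtain ⟨z, hz, h2⟩ := det_cg (P := P) (hxR P) (hᵀ * A * h) ((k P)ᵀ * A * k P) (hCm P hP)
      fun i j => ⟨((p : 𝓞 K) : K) * Z i j, rp_mul (hxR P) (hZ i j), by
        rw [h1 i j]
        ring⟩
    rw [h2]
    exact ui_add (q := (p : 𝓞 K)) (hkN P hP hPT).2 hP hz
  have hblk : ∀ P ∈ T, Abv p P → BlkQ (RP K P) (ϖ P : K) (hᵀ * A * h) ∧ ∃ z ∈ RP K P,
      dsc (ϖ P : K) (hᵀ * A * h) = d P + (ϖ P : K) * z := by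
    intro P hPT hP
    obtain ⟨Z, hZ, h1⟩ := hnear P hP
    have h2 : ((p : 𝓞 K) : K) / algebraMap (𝓞 K) K (ϖ P) ∈ RP K P :=
      ((hVQB (𝓞 K) K P (ϖ P) (hϖ P hPT).1 (hϖ P hPT).2).2.1 (p : 𝓞 K)).2 hP
    have h3 := blk_near (P := P) (hw0 P hPT) (hϖ P hPT).1 (A := hᵀ * A * h)
      (C := (k P)ᵀ * A * k P)
      (Z := Matrix.of fun i j => (((p : 𝓞 K) : K) / algebraMap (𝓞 K) K (ϖ P)) ^ 2 *
        Z i j) (hkT P hP hPT).1 (fun i j => by
        rw [Matrix.of_apply, sq]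
        exact rp_mul (rp_mul h2 h2) (hZ i j)) fun i j => by
        rw [h1 i j, Matrix.of_apply]
        have := hw0 P hPT
        field_simp
    rw [(hkT P hP hPT).2]
    exact h3
  obtain ⟨m, δ, hδ, hloc, hev⟩ := hLDT K n g ω p hp hp2 hgood T ϖ hϖ (hᵀ * A * h) hsym hmin
    hui fun P hPT hP => (hblk P hPT hP).1
  obtain ⟨t1, t2, t3, t4, t5, t6, t7, t8, t9⟩ := hTRF ℚ K n (2 * g + 1) ω
  have hnB : trm ω (-B) = -trm ω B := by
    ext i j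
    show Algebra.trace ℚ K (ω i.2 * ω j.2 * (-B) i.1 j.1) =
      -Algebra.trace ℚ K (ω i.2 * ω j.2 * B i.1 j.1)
    rw [Matrix.neg_apply, mul_neg, map_neg]
  obtain ⟨g', hg0, hg1⟩ := hGDU K n (2 * g + 1) ω p hp hgood (-B) fun P hP =>
    sd_neg (hBsd P hP)
  rw [hnB] at hg1
  rw [← t1] at hloc
  have hdet : (lmm ω h).det ≠ 0 := by
    rw [t3]
    exact Algebra.norm_ne_zero_iff.2 hh0
  have hl := hLBQ p hp _ _ (trm ω A) (lmm ω h) (-trm ω B) g' m δ hdet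
  refine ⟨m, δ, hδ, hl.2.2 (hl.1.1 hloc) hg0 hg1, ?_⟩
  rw [hev]
  have hset : {P | P ∈ T ∧ Abv p P ∧
      ¬ SqQ (RP K P) (ϖ P : K) ((-1) ^ g * dsc (ϖ P : K) (hᵀ * A * h))} =
      {P | P ∈ T ∧ Abv p P ∧ ¬ SqQ (RP K P) (ϖ P : K) ((-1) ^ g * d P)} := by
    ext P
    refine and_congr_right fun hPT => and_congr_right fun hP => not_congr ?_
    exact sq_near (P := P) (ϖ := ϖ P) (hw0 P hPT) (hblk P hPT hP).2
  rw [hset]

end Pool.NF
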